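import Mathlib

/-!
# Fields closed under radicals: perfect Galois groups

If every element of a field `K` of characteristic zero is an `n`-th power for every `n`, then `K`
contains all roots of unity and the Galois group of every finite Galois extension is perfect.
-/

set_option autoImplicit false

namespace Pool.Agent.Lib.MP_097535_lc.EL

open Module IntermediateField

section group

theorem exists_index_prime {B : Type*} [CommGroup B] [Finite B] [Nontrivial B] :
    ∃ M : Subgroup B, M.index.Prime := by
  obtain ⟨M, hM, _⟩ := (eq_top_or_exists_le_coatom (⊥ : Subgroup B)).resolve_left bot_ne_top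
  refine ⟨M, ?_⟩
  have hnt : Nontrivial (B ⧸ M) := by
    rw [QuotientGroup.nontrivial_iff]
    exact hM.1
  have hs : IsSimpleGroup (B ⧸ M) := by
    refine { eq_bot_or_eq_top_of_normal := ?_ }
    intro H _
    have hle : M ≤ H.comap (QuotientGroup.mk' M) := by
      intro x hx
      rw [Subgroup.mem_comap]
      have : QuotientGroup.mk' M x = 1 := by
        rw [← MonoidHom.mem_ker, QuotientGroup.ker_mk']
        exact hx
      rw [this]
      exact H.one_mem
    rcases hle.eq_or_lt with h | h
    · left
      rw [eq_bot_iff]
      intro y hy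
      obtain ⟨x, rfl⟩ := QuotientGroup.mk'_surjective M y
      have hx : x ∈ H.comap (QuotientGroup.mk' M) := hy
      rw [← h] at hx
      rw [Subgroup.mem_bot, ← MonoidHom.mem_ker, QuotientGroup.ker_mk']
      exact hx
    · right
      have h1 := hM.2 _ h
      rw [eq_top_iff]
      intro y _
      obtain ⟨x, rfl⟩ := QuotientGroup.mk'_surjective M y
      have hx : x ∈ H.comap (QuotientGroup.mk' M) := by
        rw [h1]
        exact Subgroup.mem_top x
      exact hx
  have h := CommGroup.is_simple_iff_prime_card.mp hs
  rwa [Subgroup.index_eq_card]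

theorem exists_normal_index_prime {G A : Type*} [Group G] [Finite G] [CommGroup A] (f : G →* A)
    (g : G) (hg : f g ≠ 1) : ∃ N : Subgroup G, N.Normal ∧ N.index.Prime ∧ f.ker ≤ N := by
  have : Nontrivial f.range := ⟨⟨f g, g, rfl⟩, 1, fun h => hg (congrArg Subtype.val h)⟩
  have : Finite f.range := Finite.of_surjective f.rangeRestrict f.rangeRestrict_surjective
  obtain ⟨M, hM⟩ := exists_index_prime (B := f.range)
  refine ⟨M.comap f.rangeRestrict, inferInstance, ?_, ?_⟩
  · rw [Subgroup.index_comap_of_surjective _ f.rangeRestrict_surjective]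
    exact hM
  · intro x hx
    rw [Subgroup.mem_comap]
    have : f.rangeRestrict x = 1 := Subtype.ext hx
    rw [this]
    exact M.one_mem

theorem perfect_of_comm_hom {G : Type*} [Group G]
    (h : ∀ (f : G →* Abelianization G) (g : G), f g = 1) : Group.IsPerfect G := by
  rw [Group.isPerfect_def, eq_top_iff]
  intro g _
  have := h Abelianization.of g
  rw [← MonoidHom.mem_ker, Abelianization.ker_of] at this
  exact this

/-- A homomorphism from a perfect group to a soluble group is trivial. -/
theorem perfect_hom_trivial {G H : Type*} [Group G] [Group H] [Group.IsPerfect G] [Group.IsSolvable H]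
    (f : G →* H) (g : G) : f g = 1 := by
  have h1 : Group.IsPerfect f.range := Group.IsPerfect.range f
  have h2 : Group.IsSolvable f.range := inferInstance
  have h3 : Subsingleton f.range := by
    by_contra hn
    rw [not_subsingleton_iff_nontrivial] at hn
    exact Group.IsPerfect.not_isSolvable f.range h2
  have h4 : (⟨f g, g, rfl⟩ : f.range) = 1 := Subsingleton.elim _ _
  exact congrArg Subtype.val h4

end group

section field

variable {K : Type*} [Field K] [CharZero K]

theorem no_prime_degree (hrad : ∀ n : ℕ, n ≠ 0 → ∀ y : K, ∃ x : K, x ^ n = y) {q : ℕ}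
    (hq : q.Prime) (hr : (primitiveRoots q K).Nonempty) (L : Type*) [Field L] [Algebra K L]
    [FiniteDimensional K L] [IsGalois K L] (hL : finrank K L = q) : False := by
  have hc : Nat.card Gal(L/K) = q := by rw [IsGalois.card_aut_eq_finrank, hL]
  have hcyc : IsCyclic Gal(L/K) := by
    have : Fact q.Prime := ⟨hq⟩
    exact isCyclic_of_prime_card hc
  subst hL
  obtain ⟨α, ⟨a, ha⟩, hα⟩ := exists_root_adjoin_eq_top_of_isCyclic K L hr
  have hirr := irreducible_X_pow_sub_C_of_root_adjoin_eq_top ha.symm hα
  obtain ⟨x, hx⟩ := hrad (finrank K L) hq.ne_zero a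
  have hdeg := Polynomial.degree_eq_one_of_irreducible_of_root hirr (x := x) (by
    simp [hx])
  rw [Polynomial.degree_X_pow_sub_C hq.pos] at hdeg
  have : finrank K L = 1 := by exact_mod_cast hdeg
  exact hq.one_lt.ne' this

theorem no_normal_index (hrad : ∀ n : ℕ, n ≠ 0 → ∀ y : K, ∃ x : K, x ^ n = y) {q : ℕ}
    (hq : q.Prime) (hr : (primitiveRoots q K).Nonempty) (L : Type*) [Field L] [Algebra K L]
    [FiniteDimensional K L] [IsGalois K L] (N : Subgroup Gal(L/K)) [N.Normal]
    (hN : N.index = q) : False := by
  have h1 : Nat.card (Gal(L/K) ⧸ N) = q := by rw [← Subgroup.index_eq_card, hN]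
  have h2 : Nat.card Gal(fixedField N/K) = q := by
    rw [← h1]
    exact (Nat.card_congr (IsGalois.normalAutEquivQuotient N).toEquiv).symm
  apply no_prime_degree hrad hq hr (fixedField N)
  rw [← IsGalois.card_aut_eq_finrank, h2]

theorem exists_primitiveRoot (hrad : ∀ n : ℕ, n ≠ 0 → ∀ y : K, ∃ x : K, x ^ n = y) (q : ℕ)
    (hq : q.Prime) : (primitiveRoots q K).Nonempty := by
  induction q using Nat.strong_induction_on with
  | _ q ih =>
    have : NeZero q := ⟨hq.ne_zero⟩
    have : Fact q.Prime := ⟨hq⟩
    have hgal : IsGalois K (CyclotomicField q K) := IsCyclotomicExtension.isGalois {q} K _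
    have hfin : FiniteDimensional K (CyclotomicField q K) :=
      IsCyclotomicExtension.finiteDimensional {q} K _
    have hζ := IsCyclotomicExtension.zeta_spec q K (CyclotomicField q K)
    set f := hζ.autToPow K with hf
    have hinj : Function.Injective f := IsPrimitiveRoot.autToPow_injective K hζ
    by_cases htriv : ∀ g, f g = 1
    · -- trivial Galois group
      have hsub : Subsingleton Gal(CyclotomicField q K/K) :=
        ⟨fun a b => hinj (by rw [htriv, htriv])⟩
      have hcard : Nat.card Gal(CyclotomicField q K/K) = 1 := Nat.card_of_subsingleton 1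
      rw [IsGalois.card_aut_eq_finrank] at hcard
      obtain ⟨z, hz⟩ : ∃ z : K, algebraMap K (CyclotomicField q K) z =
          IsCyclotomicExtension.zeta q K (CyclotomicField q K) := by
        have hb : (⊥ : IntermediateField K (CyclotomicField q K)) = ⊤ :=
          IntermediateField.bot_eq_top_of_finrank_adjoin_eq_one fun x => by
            have h1 : finrank K K⟮x⟯ ∣ finrank K (CyclotomicField q K) :=
              ⟨_, (finrank_mul_finrank K K⟮x⟯ (CyclotomicField q K)).symm⟩
            rw [hcard] at h1
            exact Nat.dvd_one.mp h1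
        have hm : IsCyclotomicExtension.zeta q K (CyclotomicField q K) ∈
            (⊥ : IntermediateField K (CyclotomicField q K)) := by
          rw [hb]
          exact IntermediateField.mem_top
        exact IntermediateField.mem_bot.mp hm
      refine ⟨z, ?_⟩
      rw [mem_primitiveRoots hq.pos]
      rw [← hz] at hζ
      exact hζ.of_map_of_injective (algebraMap K (CyclotomicField q K)).injective
    · push Not at htriv
      obtain ⟨g, hg⟩ := htriv
      obtain ⟨N, hN, hNi, _⟩ := exists_normal_index_prime f g hg
      have h1 : N.index ∣ Nat.card Gal(CyclotomicField q K/K) := N.index_dvd_card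
      have h2 : Nat.card Gal(CyclotomicField q K/K) ∣ Nat.card (ZMod q)ˣ :=
        Subgroup.card_dvd_of_injective f hinj
      have h3 : N.index ∣ q - 1 := by
        have := h1.trans h2
        rwa [Nat.card_eq_fintype_card, ZMod.card_units_eq_totient, Nat.totient_prime hq] at this
      have h4 : N.index < q := by
        have h5 := Nat.le_of_dvd (Nat.sub_pos_of_lt hq.one_lt) h3
        have := hq.pos
        omega
      exact (no_normal_index hrad hNi (ih _ h4 hNi) (CyclotomicField q K) N rfl).elim

theorem isPerfect_gal (hrad : ∀ n : ℕ, n ≠ 0 → ∀ y : K, ∃ x : K, x ^ n = y) (L : Type*) [Field L]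
    [Algebra K L] [FiniteDimensional K L] [IsGalois K L] : Group.IsPerfect Gal(L/K) := by
  apply perfect_of_comm_hom
  intro f g
  by_contra hg
  obtain ⟨N, hN, hNi, _⟩ := exists_normal_index_prime f g hg
  exact no_normal_index hrad hNi (exists_primitiveRoot hrad _ hNi) L N rfl

end field

end Pool.Agent.Lib.MP_097535_lc.EL
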